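import Pool.Agent.Helper10.PC.Curve
import Pool.Agent.Helper53.SZ.WDefs

/-!
# Rational forms of monodromy groups and the Jacobians of configuration curves

Let `F` be a number field in `ℂ`, and let `𝓜` be the category of motives over `F` in the sense of André, a
semisimple abelian category. For a separated scheme `X` of finite type over `ℚ` let `H X` be the motive
`Gr^W_1 H^1_c(X_F)`. If `X` is smooth and integral, of dimension one, it is `h^1` of the smooth
compactification of the curve `X_F`, the motive of its Jacobian (the product of the Jacobians of the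
components).

A matroid `M` of rank three on the set `Fin 4 ⊕ Fin m` is **framed** if any three of the four elements of
`Fin 4` form a base; it is **simple** if any two elements are independent. Let `modS ℚ M` be the moduli
space of the configurations of `m + 4` different points in the projective plane in which exactly the triples
prescribed by `M` are collinear, modulo projective transformations: the four points of `Fin 4` are the
points of `e_1, e_2, e_3, e_1 + e_2 + e_3`, and the other ones have normalised coordinates. If `modS ℚ M` is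
a curve, the points move in a one-parameter family; we call `modS ℚ M` a configuration curve if it is
integral, smooth and of dimension (at most) one.

**Theorem.** (1) For each smooth projective integral curve `Y` over `ℚ` there is a configuration curve
`modS ℚ M` (an open subscheme of `Y`) such that `H Y` is a direct factor of `H (modS ℚ M)`, for all `F`.

(2) For every number field `F` and every abelian variety `B` over `F` there is a configuration curve
`modS ℚ M` such that `h^1(B)` is a direct factor of `H (modS ℚ M)`: `B` is, up to isogeny, a factor of the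
Jacobian over `F` of the configuration curve.

(3) Let `Fm` be a property of motives over `F` which is inherited by direct factors. Then `Fm (h^1(B))` is
true for all abelian varieties `B` over `F` if and only if `Fm (H (modS ℚ M))` is true for all
configuration curves `modS ℚ M`.

For a motive `N` let `Fm N` be the statement that there is a connected reductive subgroup `G` over `ℚ` of
`GL(H_Betti(N))` such that `G_{ℚ_ℓ}` is the identity component of the Zariski closure of the image of the
Galois group of `F` in `GL(H_ℓ(N))` for all sufficiently large `ℓ`. It is inherited by direct factors (take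
the image of `G`). Question Q1 is the statement that `Fm (h^1(B))` is true for all abelian varieties `B`
over all number fields `F`. By (3) it is equivalent to the statement for the Jacobians, over all number
fields `F`, of the configuration curves. These are curves over `ℚ` given by explicit equations (vanishing
and non-vanishing of determinants of 3-by-3 matrices whose entries are coordinates); no direct sums, no
twists and no other degrees or weights are needed, unlike in the earlier reductions (to matrices with square
zero, and to cubic hypersurfaces).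
-/

set_option autoImplicit false

open CategoryTheory CategoryTheory.Limits AlgebraicGeometry Pool.Agent.Y116.UV Pool.Agent.Q193.LT
  Pool.Agent.Q282.UK Pool.Agent.Z125.UN Pool.Agent.Helper3.GU Pool.Agent.Helper13.RM
  Pool.Agent.Helper53.SZ Pool.Agent.Helper10.PC

universe v u w

namespace Pool.Agent.Results.MP_e965d0_ag.ConfigurationCurves

/-- Known facts about the motives `H X = Gr^W_1 H^1_c(X_F)`. Here `Ab B` says that `B` is an abelian
variety over `F`, and `h1 B` is its motive `h^1(B)`.

* `half`: isomorphisms, `H ∅ = 0`, and the exactness of `H U → H X → H Z` (see `IsHalf`);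
* `points`: `H X = 0` if `dim X ≤ 0`;
* `semisimple`: all monomorphisms split;
* `curve`: every abelian variety `B` over `F` is a quotient of the Jacobian of a smooth projective
  geometrically integral curve over `F`; this curve is a connected component of `Y_F`, where `Y` is the same
  curve considered as a scheme over `ℚ`;
* `jacobian`: for a smooth integral curve `Y` the motive `H Y` is `h^1` of the Jacobian of the smooth
  compactification of `Y_F`. -/
structure IsCurveMotives {𝓜 : Type u} [Category.{v} 𝓜] [Abelian 𝓜] (H : Sch ℚ → 𝓜) {Var : Type w}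
    (Ab : Var → Prop) (h1 : Var → 𝓜) : Prop where
  half : IsHalf H
  points : ∀ X : Sch ℚ, FT True X → topologicalKrullDim X.left ≤ 0 → IsZero (H X)
  semisimple : ∀ {N N' : 𝓜} (f : N ⟶ N'), Mono f → ∃ r : N' ⟶ N, f ≫ r = 𝟙 N
  curve : ∀ B, Ab B → ∃ Y : Sch ℚ, SmoothProj Y ∧ IsIntegral Y.left ∧
    topologicalKrullDim Y.left ≤ 1 ∧ IsFactorOf (h1 B) (H Y)
  jacobian : ∀ Y : Sch ℚ, FT True Y → Smooth Y.hom → IsIntegral Y.left →
    topologicalKrullDim Y.left ≤ 1 → ∃ B, Ab B ∧ IsFactorOf (H Y) (h1 B)

/-- **Rational forms of monodromy groups and configuration curves.** See the explanations above. -/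
theorem result :
    (∀ Y : Sch ℚ, SmoothProj Y → IsIntegral Y.left → topologicalKrullDim Y.left ≤ 1 →
      ∃ (m : ℕ) (M : Matroid (Fin 4 ⊕ Fin m)), SmoothMod ℚ 1 M ∧
        ∀ {𝓜 : Type u} [Category.{v} 𝓜] [Abelian 𝓜] {H : Sch ℚ → 𝓜} {Var : Type w}
          {Ab : Var → Prop} {h1 : Var → 𝓜}, IsCurveMotives H Ab h1 →
          IsFactorOf (H Y) (H (modS ℚ M))) ∧
    ∀ {𝓜 : Type u} [Category.{v} 𝓜] [Abelian 𝓜] {H : Sch ℚ → 𝓜} {Var : Type w}
      {Ab : Var → Prop} {h1 : Var → 𝓜}, IsCurveMotives H Ab h1 →
      (∀ B, Ab B → ∃ (m : ℕ) (M : Matroid (Fin 4 ⊕ Fin m)), SmoothMod ℚ 1 M ∧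
        IsFactorOf (h1 B) (H (modS ℚ M))) ∧
      ∀ {Fm : 𝓜 → Prop}, Inherited Fm → ((∀ B, Ab B → Fm (h1 B)) ↔
        ∀ (m : ℕ) (M : Matroid (Fin 4 ⊕ Fin m)), SmoothMod ℚ 1 M → Fm (H (modS ℚ M))) := by
  have key : ∀ Y : Sch ℚ, SmoothProj Y → IsIntegral Y.left → topologicalKrullDim Y.left ≤ 1 →
      ∃ (m : ℕ) (M : Matroid (Fin 4 ⊕ Fin m)), SmoothMod ℚ 1 M ∧
        ∀ {𝓜 : Type u} [Category.{v} 𝓜] [Abelian 𝓜] {H : Sch ℚ → 𝓜} {Var : Type w}
          {Ab : Var → Prop} {h1 : Var → 𝓜}, IsCurveMotives H Ab h1 →
          IsFactorOf (H Y) (H (modS ℚ M)) := by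
    intro Y hY hi hd
    obtain ⟨m, M, Z, i, j, hM, hZ, hd0, ht⟩ := exists_curve (presents_frac frac_rat) Y hY.ft
      hY.smooth hd
    refine ⟨m, M, hM, fun {𝓜} _ _ {H Var Ab h1} h => ?_⟩
    obtain ⟨a, b, hab, he⟩ := h.half.exact i j hY.ft ht
    have hb : b = 0 := (h.points Z hZ hd0).eq_of_tgt _ _
    have ha : Epi a := (ShortComplex.exact_iff_epi _ hb).mp he
    exact factor_of_epi h.semisimple a ha
  refine ⟨key, fun {𝓜} _ _ {H Var Ab h1} h => ?_⟩
  have h2 : ∀ B, Ab B → ∃ (m : ℕ) (M : Matroid (Fin 4 ⊕ Fin m)), SmoothMod ℚ 1 M ∧
      IsFactorOf (h1 B) (H (modS ℚ M)) := by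
    intro B hB
    obtain ⟨Y, hY, hi, hd, hf⟩ := h.curve B hB
    obtain ⟨m, M, hM, h3⟩ := key Y hY hi hd
    exact ⟨m, M, hM, hf.trans (h3 h)⟩
  refine ⟨h2, fun {Fm} hF => ⟨fun h3 m M hM => ?_, fun h3 B hB => ?_⟩⟩
  · have hi : IsIntegral (modS ℚ M).left := (affine_isIntegral_iff _).mpr hM.domain
    obtain ⟨B, hB, i, r, hir⟩ := h.jacobian (modS ℚ M) (ft_modT _) (smooth_aff_iff.2 hM.smooth) hi
      hM.dim
    exact hF i r hir (h3 B hB)
  · obtain ⟨m, M, hM, i, r, hir⟩ := h2 B hB
    exact hF i r hir (h3 m M hM)

end Pool.Agent.Results.MP_e965d0_ag.ConfigurationCurves
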