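import Pool.Agent.Helper53.SZ.Weight

/-!
# Rational forms of monodromy groups of abelian varieties and matrices with square zero

Let `F` be a number field in `ℂ`, and let `M` be the category of motives over `F` in the sense of André, a
semisimple abelian category. For a separated scheme `X` of finite type over `ℚ` let `H n X` be the motive
`Gr^W_1 H^n_c(X_F)` (the graded object of weight **one** of the cohomology with compact supports). For
smooth projective `Y` over `ℚ` the motive `H n Y` is `h^1(Y_F)` if `n = 1`, and zero for all other `n`.

For a motive `N` let `Fm N` be the statement that there is a connected reductive subgroup `G` over `ℚ` of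
`GL(H_Betti(N))` such that `G_{ℚ_ℓ}` is the identity component of the Zariski closure of the image of the
Galois group of `F` in `GL(H_ℓ(N))` for all sufficiently large `ℓ`. This is inherited by direct factors
(take the image of `G`; `Inherited`). Question Q1 is the statement that `Fm (h^1(B))` is true for all
abelian varieties `B` over all number fields `F` (this does not depend on the finite extension `K` of `F`
of the question).

**Theorem.** For every property `Fm` of motives that is inherited by direct factors the following are
equivalent:

1. `Fm (h^1(B))` is true for all abelian varieties `B` over `F`;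
2. `Fm` is true for all finite direct sums of the motives `Gr^W_1 H^n_c(Y_F)` for the schemes `Y` over `ℚ` of
   the pairs of matrices `A`, `B` with `A B = 0` and with prescribed zeros;
3. `Fm` is true for all finite direct sums of the motives `Gr^W_1 H^n_c(Y_F)` for the schemes `Y` over `ℚ` of
   the strictly upper triangular matrices `N` with `N² = 0` and with prescribed zeros.

Moreover, for every smooth projective scheme `Y₀` over `ℚ` there is a finite list `L` of sets of positions
above the diagonal, which depends only on `Y₀`, such that for all number fields `F` and all abelian varieties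
`B` over `F` for which `h^1(B)` is a direct factor of `h^1(Y₀_F)` (every `B` is of this kind: let `Y₀` be
`B`, considered as a scheme over `ℚ`) the motive `h^1(B)` is a direct factor of a finite direct sum of the
motives `Gr^W_1 H^n_c(Y_F)` for the schemes `Y` of the matrices `N` with `N² = 0` and with zeros outside of
the positions of a pattern in `L`; so `Fm` for these finite direct sums implies `Fm (h^1(B))`.

There are no Tate twists and only the weight one occurs; no purity, smoothness or projectivity of the
schemes `Y` is used.
-/

set_option autoImplicit false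

open CategoryTheory CategoryTheory.Limits AlgebraicGeometry Pool.Agent.Y116.UV Pool.Agent.Q193.LT
  Pool.Agent.Q282.UK Pool.Agent.Helper53.SZ

universe v u w

namespace Pool.Agent.Results.MP_e965d0_ag.SquareZeroMatrices

attribute [local instance] Abelian.hasFiniteBiproducts

/-- `N` is a direct factor of `N'`. -/
def IsFactor {M : Type u} [Category.{v} M] (N N' : M) : Prop :=
  ∃ (i : N ⟶ N') (r : N' ⟶ N), i ≫ r = 𝟙 N

/-- Known facts about the motives of weight one over a number field `F`: `M` is the category of motives,
`H n X = Gr^W_1 H^n_c(X_F)` for the schemes `X` over `ℚ`, `Ab B` says that `B` is an abelian variety over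
`F`, and `h1 B` is its motive `h^1(B)`.

* `pieces`: the long exact sequence and the product with `𝔾_m`, in weight one (see `IsPieces`);
* `generated`: smooth projective schemes generate (see `IsGenerated`);
* `semisimple`: all monomorphisms split;
* `model`: every abelian variety `B` over `F` is a union of connected components of `Y_F` for a smooth
  projective scheme `Y` over `ℚ` (the scheme `B` itself), so `h^1(B)` is a direct factor of `h^1(Y_F)`;
* `albanese`: for smooth projective `Y` the motive `H n Y` is zero or the motive `h^1` of the Albanese
  variety of `Y_F`, and so finite direct sums of such motives are direct factors of `h^1(B)` for a product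
  `B` of abelian varieties. -/
structure IsWeightOne {M : Type u} [Category.{v} M] [Abelian M] (H : ℤ → Sch ℚ → M) {Var : Type w}
    (Ab : Var → Prop) (h1 : Var → M) : Prop where
  pieces : IsPieces H
  generated : IsGenerated H
  semisimple : ∀ {X Y : M} (f : X ⟶ Y), Mono f → ∃ r : Y ⟶ X, f ≫ r = 𝟙 X
  model : ∀ B, Ab B → ∃ Y : Sch ℚ, SmoothProj Y ∧ IsFactor (h1 B) (H 1 Y)
  albanese : ∀ (J : Type) [Finite J] (Y : J → Sch ℚ) (n : J → ℤ), (∀ j, SmoothProj (Y j)) →
    ∃ B, Ab B ∧ IsFactor (⨁ fun j => H (n j) (Y j)) (h1 B)

/-- **Rational forms of monodromy groups of abelian varieties and matrices with square zero.** See the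
explanations above. -/
theorem result :
    (∀ {M : Type u} [Category.{v} M] [Abelian M] {H : ℤ → Sch ℚ → M} {Var : Type w}
      {Ab : Var → Prop} {h1 : Var → M}, IsWeightOne H Ab h1 → ∀ {Fm : M → Prop}, Inherited Fm →
        [∀ B, Ab B → Fm (h1 B), Sums (OfProduct H) Fm, Sums (OfSquare H) Fm].TFAE) ∧
    ∀ Y₀ : Sch ℚ, SmoothProj Y₀ →
      ∃ L : List (Σ m : ℕ, Fin m → Fin m → Prop), (∀ G ∈ L, ∀ i j, G.2 i j → i < j) ∧
        ∀ {M : Type u} [Category.{v} M] [Abelian M] {H : ℤ → Sch ℚ → M} {Var : Type w}
          {Ab : Var → Prop} {h1 : Var → M}, IsWeightOne H Ab h1 →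
          ∀ B, IsFactor (h1 B) (H 1 Y₀) → Factor (OfPatterns H L) (h1 B) ∧
            ∀ {Fm : M → Prop}, Inherited Fm → Sums (OfPatterns H L) Fm → Fm (h1 B) := by
  constructor
  · intro M _ _ H Var Ab h1 h Fm hF
    have hs := sums_tfae Pool.Agent.Q282.UM.presents_rat h.pieces h.generated h.semisimple hF
    have h01 := hs.out 0 1
    have h12 := hs.out 1 2
    have h0 : (∀ B, Ab B → Fm (h1 B)) ↔ Sums (OfProj H) Fm := by
      constructor
      · intro h2 J _ N hN
        choose Y n hY hN using hN
        obtain ⟨B, hB, i, r, hir⟩ := h.albanese J Y n hY
        have h3 : N = fun j => H (n j) (Y j) := funext hN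
        rw [h3]
        exact hF i r hir (h2 B hB)
      · intro h2 B hB
        obtain ⟨Y, hY, i, r, hir⟩ := h.model B hB
        exact hF i r hir (factor_of_sums hF h2 (Factor.self ⟨Y, 1, hY, rfl⟩))
    tfae_have 1 ↔ 2 := h0.trans h01
    tfae_have 2 ↔ 3 := h12
    tfae_finish
  · intro Y₀ hY
    obtain ⟨L, hL, h⟩ := factor_list.{v, u} Pool.Agent.Q282.UM.presents_rat Y₀ hY.ft
    refine ⟨L, hL, ?_⟩
    intro M _ _ H Var Ab h1 hW B ⟨i, r, hir⟩
    have h2 := h hW.semisimple hW.pieces 1
    have h3 : Factor (OfPatterns H L) (h1 B) := by
      obtain ⟨J, hJ, N, i', r', hN, hs⟩ := h2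
      refine ⟨J, hJ, N, fun j => i ≫ i' j, fun j => r' j ≫ r, hN, ?_⟩
      have h4 : ∀ j, (i ≫ i' j) ≫ r' j ≫ r = i ≫ (i' j ≫ r' j) ≫ r := fun j => by
        simp only [Category.assoc]
      simp only [h4]
      rw [← Preadditive.comp_sum, ← Preadditive.sum_comp, hs, Category.id_comp, hir]
    exact ⟨h3, fun hF hs => factor_of_sums hF hs h3⟩

end Pool.Agent.Results.MP_e965d0_ag.SquareZeroMatrices
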