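import Pool.Agent.Helper7.OC.Seq
import Pool.Graph.R_pool_sql_team_seeded_2aa45f1a.Q193.LT.Defs

/-!
# Rational forms of monodromy groups and one tower of configuration curves

A matroid `M` of rank three on the set `Fin 4 ⊕ Fin m` is **framed** if any three of the four elements of
`Fin 4` form a base; it is **simple** if any two elements are independent. Let `modS ℚ M` be the moduli
space over `ℚ` of the configurations of `m + 4` different points in the projective plane in which exactly
the triples prescribed by `M` are collinear, modulo projective transformations: the four points of `Fin 4`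
are the points of `e_1, e_2, e_3, e_1 + e_2 + e_3`, and the other ones have normalised coordinates. We call
`modS ℚ M` a **configuration curve** (`SmoothMod ℚ 1 M`) if `M` is simple and framed, and `modS ℚ M` is
integral, smooth and of dimension at most one.

**Theorem.** There is **one sequence** of configuration curves `X_i = modS ℚ M_i` over `ℚ` with the following
properties.

1. They are a tower: for all `i < j` there is a dominant morphism `X_j → X_i`.
2. The tower is cofinal: each integral separated scheme `X` of finite type over `ℚ`, of dimension at most one
   (each curve over `ℚ`), is dominated by `X_i` for all large `i`. (So the union of the function fields of the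
   curves `X_i` is an algebraic closure of `ℚ(t)`, for suitable dominant morphisms.)
3. Let `F ⊆ ℂ` be an algebraic extension of `ℚ`, for instance a number field or `F = ℚ̄`, let `𝓜` be the
   category of abelian varieties over `F` up to isogeny, and for a smooth integral curve `X` over `ℚ` let `J X`
   be the Jacobian variety of the smooth compactification of `X_F` (the product of the Jacobians of its
   components). Each abelian variety `B` over `F` is, up to isogeny, a direct factor of `J X_i` for all large
   `i`.
4. Let `P` be a property of abelian varieties over `F` which is inherited by direct factors up to isogeny. Then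
   `P (B)` is true for **all** abelian varieties `B` over `F` if and only if `P (J X_i)` is true for
   **infinitely many** `i`. If it is not true for all `B` then there is `i₀` such that `P (J X_i)` is true
   exactly for the `i < i₀`.

For question Q1 let `F = ℚ̄`. For an abelian variety `B` over `ℚ̄` let `P B` be the statement that there is a
connected reductive subgroup `G` over `ℚ` of `GSp (H_1(B(ℂ), ℚ), ψ)` such that `G_{ℚ_ℓ}` is the identity
component of the Zariski closure of the image of the Galois group of `K` in `GSp (V_ℓ B, ψ_ℓ)`, for all
sufficiently large `ℓ`, for a model of `B` over a number field `K` (this does not depend on `K` and on the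
model). This is inherited by direct factors (take the image of `G`; it is a group of similitudes as this is
so over `ℚ_ℓ`). Question Q1 is the statement that `P B` is true for all `B`. **So Q1 is true if and only if
infinitely many of the Jacobians of the curves `X_i` have a common `ℚ`-form of their `ℓ`-adic monodromy
groups.** Here `X_i` is a curve over `ℚ`, given by explicit equations (vanishing and non-vanishing of
determinants of 3-by-3 matrices the entries of which are coordinates), but the sequence is constructed by means
of an enumeration of the matroids and is not explicit.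

Earlier reductions need all the curves of a family (ConfigurationCurves in this folder) or all finite direct
sums of motives of singular schemes (SquareZeroMatrices), or moduli spaces of large dimension (OneSequence,
MP_57341d_ag, the methods of which are used here). The new step is that two curves are dominated by a third one
(`exists_common_curve`): two domains of dimension at most one and of finite type over a field `k` are embedded
into the algebraic closure of `k(t)`, such that the images are integral over `k[t]`.

The facts about Jacobians which are used are listed in `IsJacobian`.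
-/

set_option autoImplicit false

open CategoryTheory AlgebraicGeometry Pool.Agent.Y116.UV Pool.Agent.Z125.UN Pool.Agent.Q193.LT
  Pool.Agent.Helper3.GU Pool.Agent.Helper13.RM Pool.Agent.Helper10.PC

universe v u

namespace Pool.Agent.Results.MP_e965d0_ag.TowerOfCurves

/-- Integral separated schemes of finite type over `ℚ` of dimension at most one. -/
structure IsCurve (X : Sch ℚ) : Prop where
  ft : FT True X
  integral : IsIntegral X.left
  dim : topologicalKrullDim X.left ≤ 1

/-- Known facts about the Jacobians. Here `𝓜` is the category of abelian varieties over an algebraic extension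
`F ⊆ ℂ` of `ℚ` up to isogeny, and for a smooth `X` with `IsCurve X` the object `J X` is the Jacobian of the
smooth compactification of `X_F`, the product of the Jacobians of the connected components (a point, if
`dim X ≤ 0`).

* `dominant`: if a smooth integral curve `U` over `ℚ` dominates the smooth integral curve `X` then `J X` is up
  to isogeny a direct factor of `J U` (each component of `X_F` is dominated by a component of `U_F`; complete
  reducibility);
* `curve`: every abelian variety `B` over `F` is defined over a number field `L` in `F`, and it is a quotient
  of the Jacobian of a smooth projective geometrically integral curve over `L`; let `Y` be the same curve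
  considered as a scheme over `ℚ`. Then this curve over `F` is a component of `Y_F`, and so `B` is up to isogeny
  a direct factor of `J Y`. -/
structure IsJacobian {𝓜 : Type u} [Category.{v} 𝓜] (J : Sch ℚ → 𝓜) : Prop where
  dominant : ∀ X U : Sch ℚ, IsCurve X → Smooth X.hom → IsCurve U → Dominates U X →
    IsFactorOf (J X) (J U)
  curve : ∀ B : 𝓜, ∃ Y : Sch ℚ, SmoothProj Y ∧ IsCurve Y ∧ IsFactorOf B (J Y)

/-- **Rational forms of monodromy groups and one tower of configuration curves.** See the explanations
above. -/
theorem result :
    ∃ M : ℕ → Σ m : ℕ, Matroid (Fin 4 ⊕ Fin m), (∀ i, SmoothMod ℚ 1 (M i).2) ∧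
      (∀ i j, i < j → Dominates (modS ℚ (M j).2) (modS ℚ (M i).2)) ∧
      (∀ X : Sch ℚ, IsCurve X → ∃ i₀, ∀ i, i₀ ≤ i → Dominates (modS ℚ (M i).2) X) ∧
      ∀ {𝓜 : Type u} [Category.{v} 𝓜] {J : Sch ℚ → 𝓜}, IsJacobian J →
        (∀ B : 𝓜, ∃ i₀, ∀ i, i₀ ≤ i → IsFactorOf B (J (modS ℚ (M i).2))) ∧
        ∀ {P : 𝓜 → Prop}, (∀ A B : 𝓜, IsFactorOf A B → P B → P A) →
          ((∀ B, P B) ↔ {i | P (J (modS ℚ (M i).2))}.Infinite) ∧
          (¬ (∀ B, P B) → ∃ i₀, ∀ i, P (J (modS ℚ (M i).2)) ↔ i < i₀) := by
  obtain ⟨M, hM, ht, hc⟩ := Pool.Agent.Helper7.OC.exists_tower (k := ℚ) (presents_frac frac_rat)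
  have hcur : ∀ i, IsCurve (modS ℚ (M i).2) := fun i =>
    ⟨ft_modT _, (affine_isIntegral_iff _).mpr (hM i).domain, (hM i).dim⟩
  have hc' : ∀ X : Sch ℚ, IsCurve X → ∃ i₀, ∀ i, i₀ ≤ i → Dominates (modS ℚ (M i).2) X :=
    fun X hX => hc X hX.ft hX.integral hX.dim
  refine ⟨M, hM, ht, hc', fun {𝓜} _ {J} hJ => ?_⟩
  have h1 : ∀ B : 𝓜, ∃ i₀, ∀ i, i₀ ≤ i → IsFactorOf B (J (modS ℚ (M i).2)) := by
    intro B
    obtain ⟨Y, hY, hYc, hB⟩ := hJ.curve B
    obtain ⟨i₀, hi₀⟩ := hc' Y hYc
    exact ⟨i₀, fun i hi => hB.trans (hJ.dominant Y _ hYc hY.smooth (hcur i) (hi₀ i hi))⟩
  refine ⟨h1, fun {P} hP => ?_⟩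
  have h2 : (∀ B, P B) ↔ {i | P (J (modS ℚ (M i).2))}.Infinite := by
    refine ⟨fun h => ?_, fun h B => ?_⟩
    · rw [Set.eq_univ_of_forall (s := {i | P (J (modS ℚ (M i).2))}) fun i => h _]
      exact Set.infinite_univ
    · obtain ⟨i₀, hi₀⟩ := h1 B
      obtain ⟨i, hi, hi'⟩ := h.exists_gt i₀
      exact hP _ _ (hi₀ i hi'.le) hi
  refine ⟨h2, fun hn => ?_⟩
  have hdown : ∀ i j, i < j → P (J (modS ℚ (M j).2)) → P (J (modS ℚ (M i).2)) := fun i j hij h =>
    hP _ _ (hJ.dominant _ _ (hcur i) (smooth_aff_iff.2 (hM i).smooth) (hcur j) (ht i j hij)) h
  rw [h2, Set.not_infinite] at hn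
  classical
  have hex : ∃ i, ¬ P (J (modS ℚ (M i).2)) := by
    by_contra hcon
    push Not at hcon
    rw [Set.eq_univ_of_forall (s := {i | P (J (modS ℚ (M i).2))}) hcon] at hn
    exact Set.infinite_univ hn
  refine ⟨Nat.find hex, fun i => ⟨fun h => ?_, fun h => not_not.mp (Nat.find_min hex h)⟩⟩
  by_contra hlt
  push Not at hlt
  rcases hlt.lt_or_eq with h' | h'
  · exact Nat.find_spec hex (hdown _ _ h' h)
  · rw [← h'] at h
    exact Nat.find_spec hex h

end Pool.Agent.Results.MP_e965d0_ag.TowerOfCurves
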